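import Pool.Agent.KDT.StmtsP

/-!
# Squad KDT, row PIG (helper67): pigeonhole for curves
-/

set_option autoImplicit false

namespace Pool.Agent.KDT.H67

open Pool.Agent.KDT Pool.Agent.KDT.Z

theorem incl {α ι : Type} [DecidableEq α] [DecidableEq ι] (T : Finset ι) (Z : ι → Finset α)
    (r : ι → ι → Prop) (a b : ℕ) (ha : ∀ i ∈ T, a ≤ (Z i).card)
    (hb : ∀ i ∈ T, ∀ j ∈ T, ¬ r i j → (Z i ∩ Z j).card ≤ b) (J : Finset ι) :
    J ⊆ T → (∀ i ∈ J, ∀ j ∈ J, i ≠ j → ¬ r i j) →
      J.card * a ≤ (J.biUnion Z).card + J.card ^ 2 * b := by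
  induction J using Finset.induction_on with
  | empty => intro _ _; simp
  | insert i J hi ih =>
    intro hJ hr
    have h1 := ih (fun x hx => hJ (Finset.mem_insert_of_mem hx))
      (fun x hx y hy => hr x (Finset.mem_insert_of_mem hx) y (Finset.mem_insert_of_mem hy))
    have hiT : i ∈ T := hJ (Finset.mem_insert_self _ _)
    have h2 : (Z i ∩ J.biUnion Z).card ≤ J.card * b := by
      rw [Finset.inter_biUnion]
      refine Finset.card_biUnion_le_card_mul _ _ _ ?_
      intro j hj
      exact hb i hiT j (hJ (Finset.mem_insert_of_mem hj))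
        (hr i (Finset.mem_insert_self _ _) j (Finset.mem_insert_of_mem hj)
          (fun h => hi (h ▸ hj)))
    have h3 := Finset.card_union_add_card_inter (Z i) (J.biUnion Z)
    have h4 := ha i hiT
    rw [Finset.card_insert_of_notMem hi, Finset.biUnion_insert]
    have h5 : (J.card + 1) * a = J.card * a + a := by ring
    have h6 : (J.card + 1) ^ 2 * b = J.card ^ 2 * b + J.card * b + (J.card * b + b) := by ring
    rw [h5, h6]
    omega

theorem pig : PigStatement := by
  intro α ι _ T Z P r _ R a b N hr hP hZ hb hN hT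
  classical
  obtain ⟨Q, hQ⟩ : ∃ Q : Finset ι → Prop, ∀ I, Q I ↔ ∀ i ∈ I, ∀ j ∈ I, i ≠ j → ¬ r i j :=
    ⟨_, fun I => Iff.rfl⟩
  obtain ⟨I, hI, hmax⟩ := Finset.exists_max_image (T.powerset.filter Q) Finset.card
    ⟨∅, Finset.mem_filter.2 ⟨Finset.empty_mem_powerset T,
      (hQ ∅).2 (fun i hi => absurd hi (Finset.notMem_empty i))⟩⟩
  rw [Finset.mem_filter, Finset.mem_powerset, hQ] at hI
  obtain ⟨hIT, hIr⟩ := hI
  have hcov : ∀ j ∈ T, ∃ i ∈ I, r i j := by
    intro j hj
    by_contra hno
    push Not at hno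
    have hjI : j ∉ I := fun h => hno j h (hr.refl j)
    have h1 := hmax (insert j I) (Finset.mem_filter.2 ⟨Finset.mem_powerset.2
      (Finset.insert_subset hj hIT), by
        rw [hQ]
        intro x hx y hy hxy
        rcases Finset.mem_insert.1 hx with hx | hx
        · rcases Finset.mem_insert.1 hy with hy | hy
          · exact absurd (hx.trans hy.symm) hxy
          · rw [hx]
            exact fun h => hno y hy (hr.symm h)
        · rcases Finset.mem_insert.1 hy with hy | hy
          · rw [hy]
            exact hno x hx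
          · exact hIr x hx y hy hxy⟩)
    rw [Finset.card_insert_of_notMem hjI] at h1
    omega
  have hIR : I.card < R := by
    by_contra hge
    push Not at hge
    obtain ⟨J, hJI, hJ⟩ := Finset.exists_subset_card_eq hge
    have h1 := incl T Z r a b (fun i hi => (hZ i hi).2) hb J (hJI.trans hIT)
      (fun x hx y hy => hIr x (hJI hx) y (hJI hy))
    have h2 : (J.biUnion Z).card ≤ N := by
      refine le_trans (Finset.card_le_card ?_) hP
      rw [Finset.biUnion_subset]
      exact fun x hx => (hZ x (hIT (hJI hx))).1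
    rw [hJ] at h1
    omega
  obtain ⟨t, ht⟩ := hT
  obtain ⟨i0, hi0, _⟩ := hcov t ht
  obtain ⟨i, hi, him⟩ := Finset.exists_max_image I (fun i => (T.filter (fun j => r i j)).card)
    ⟨i0, hi0⟩
  refine ⟨i, hIT hi, ?_⟩
  calc T.card ≤ (I.biUnion fun i => T.filter (fun j => r i j)).card := by
        apply Finset.card_le_card
        intro j hj
        obtain ⟨x, hx, hxj⟩ := hcov j hj
        exact Finset.mem_biUnion.2 ⟨x, hx, Finset.mem_filter.2 ⟨hj, hxj⟩⟩
    _ ≤ I.card * (T.filter (fun j => r i j)).card :=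
        Finset.card_biUnion_le_card_mul _ _ _ him
    _ ≤ R * (T.filter (fun j => r i j)).card := Nat.mul_le_mul_right _ hIR.le

end Pool.Agent.KDT.H67
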